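import Mathlib

namespace Pool.Agent.Results.MP_b215e8_pr.NotHaar
open MeasureTheory ProbabilityTheory Set
open scoped ENNReal

/-- Arrival time of seed `i`: the sum of the first `i + 1` inter-arrival gaps. -/
noncomputable def tau {S : Type} (ω : ℕ → ℝ × S) (i : ℕ) : ℝ := ∑ j ∈ Finset.range (i + 1), (ω j).1

/-- The cover time: first `t ≥ 0` at which the growing closed balls cover the space. -/
noncomputable def cover {S : Type} [MetricSpace S] (v : ℝ) (ω : ℕ → ℝ × S) : ℝ :=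
  sInf {t | 0 ≤ t ∧ ∀ s, ∃ i, tau ω i ≤ t ∧ dist (ω i).2 s ≤ v * (t - tau ω i)}

/-- Mean cover time: the pairs (gap, seed) are i.i.d. with law `Exp(l) ⊗ μ`. -/
noncomputable def meanCover {S : Type} [MetricSpace S] [MeasurableSpace S] (l v : ℝ)
    (μ : Measure S) : ℝ≥0∞ :=
  ∫⁻ ω, ENNReal.ofReal (cover v ω) ∂(Measure.infinitePi fun _ : ℕ => (expMeasure l).prod μ)

def S : Type := Fin 16
instance : DecidableEq S := inferInstanceAs (DecidableEq (Fin 16))
instance : Fintype S := inferInstanceAs (Fintype (Fin 16))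
instance : Mul S := ⟨fun a b => (⟨(a.1 ^^^ b.1) % 16, Nat.mod_lt _ (by norm_num)⟩ : Fin 16)⟩
instance : One S := ⟨(0 : Fin 16)⟩
instance : Inv S := ⟨fun a => a⟩
instance : Group S := Group.ofLeftAxioms (by decide +kernel) (by decide +kernel) (by decide +kernel)
def a : S := (1 : Fin 16)
def d (x y : S) : ℕ := if x = y then 0 else if (x * y).1 % 2 = 1 ∧ x * y ≠ a then 1 else 2

lemma d_tri : ∀ x y z : S, d x z ≤ d x y + d y z := by decide +kernel
lemma d_inv : ∀ g x y : S, d (g * x) (g * y) = d x y := by decide +kernel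
lemma d_comm : ∀ x y : S, d x y = d y x := by decide +kernel
lemma d_zero : ∀ x y : S, d x y = 0 ↔ x = y := by decide +kernel
lemma d_le : ∀ x y : S, d x y ≤ 2 := by decide +kernel
lemma d_far : ∀ x y : S, y ≠ x * a → ∃ s, d x s = 2 ∧ d y s = 2 := by decide +kernel
lemma d_mid : ∀ x : S, ∃ s, d x s = 2 ∧ d (x * a) s = 1 := by decide +kernel
lemma d_cov : ∀ x s : S, d x s ≤ 1 ∨ d (x * a) s ≤ 1 := by decide +kernel

noncomputable instance : MetricSpace S where
  dist x y := d x y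
  dist_self x := by simp [(d_zero x x).2 rfl]
  dist_comm x y := by rw [d_comm]
  dist_triangle x y z := by exact_mod_cast d_tri x y z
  eq_of_dist_eq_zero {x y} h := (d_zero x y).1 (by exact_mod_cast h)

lemma dist_eq (x y : S) : dist x y = d x y := rfl

noncomputable instance : MeasurableSpace S := borel S
instance : BorelSpace S := ⟨rfl⟩
instance : IsTopologicalGroup S where
  continuous_mul := continuous_of_discreteTopology
  continuous_inv := continuous_of_discreteTopology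

lemma tau0 (ω : ℕ → ℝ × S) : tau ω 0 = (ω 0).1 := by simp [tau]
lemma tau1 (ω : ℕ → ℝ × S) : tau ω 1 = (ω 0).1 + (ω 1).1 := by simp [tau, Finset.sum_range_succ]
lemma tau_mono {ω : ℕ → ℝ × S} (h : ∀ i, 0 ≤ (ω i).1) : Monotone (tau ω) :=
  monotone_nat_of_le_succ fun n => by
    simp only [tau, Finset.sum_range_succ _ (n + 1)]; linarith [h (n + 1)]

lemma mem_two {ω : ℕ → ℝ × S} (h : ∀ i, 0 ≤ (ω i).1) : (ω 0).1 + 2 ∈
    {t | 0 ≤ t ∧ ∀ s, ∃ i, tau ω i ≤ t ∧ dist (ω i).2 s ≤ 1 * (t - tau ω i)} := by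
  refine ⟨by linarith [h 0], fun s => ⟨0, by rw [tau0]; linarith, ?_⟩⟩
  have : (d (ω 0).2 s : ℝ) ≤ 2 := by exact_mod_cast d_le _ _
  rw [tau0, dist_eq]; linarith

def EA (c : ℝ) : Set (ℕ → ℝ × S) := {ω | (ω 1).1 ≤ c ∧ (ω 1).2 = (ω 0).2 * a}
def EB : Set (ℕ → ℝ × S) := {ω | (ω 1).1 ≤ 2 ∧ (ω 2).1 ≤ 2}

lemma upper {ω : ℕ → ℝ × S} (h : ∀ i, 0 ≤ (ω i).1) :
    cover 1 ω + (EA (1 / 2)).indicator (fun _ => 1 / 2) ω ≤ (ω 0).1 + 2 := by
  by_cases hA : ω ∈ EA (1 / 2)
  · rw [indicator_of_mem hA]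
    have : cover 1 ω ≤ (ω 0).1 + 3 / 2 := by
      refine csInf_le ⟨0, fun t ht => ht.1⟩ ⟨by linarith [h 0], fun s => ?_⟩
      rcases d_cov (ω 0).2 s with h1 | h1
      · have : (d (ω 0).2 s : ℝ) ≤ 1 := by exact_mod_cast h1
        exact ⟨0, by rw [tau0]; linarith, by rw [tau0, dist_eq]; linarith⟩
      · have : (d ((ω 0).2 * a) s : ℝ) ≤ 1 := by exact_mod_cast h1
        exact ⟨1, by rw [tau1]; linarith [hA.1], by rw [tau1, dist_eq, hA.2]; linarith [hA.1]⟩
    linarith
  · rw [indicator_of_notMem hA, add_zero]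
    exact csInf_le ⟨0, fun t ht => ht.1⟩ (mem_two h)

lemma lower {ω : ℕ → ℝ × S} (h : ∀ i, 0 ≤ (ω i).1) : (ω 0).1 + 2 ≤
    cover 1 ω + (EA 1).indicator (fun _ => 1) ω + EB.indicator (fun _ => 2) ω := by
  rw [add_assoc, ← sub_le_iff_le_add]
  refine le_csInf ⟨_, mem_two h⟩ fun t ht => ?_
  have hA : (0 : ℝ) ≤ (EA 1).indicator (fun _ => 1) ω := indicator_nonneg (by simp) _
  by_cases hB : ω ∈ EB
  · rw [indicator_of_mem hB]
    obtain ⟨i, h1, -⟩ := ht.2 1
    have := tau_mono h (Nat.zero_le i)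
    rw [tau0] at this
    linarith
  rw [indicator_of_notMem hB, add_zero]
  by_contra hlt
  have h2 : (ω 0).1 + 2 < tau ω 2 := by
    have : tau ω 2 = (ω 0).1 + (ω 1).1 + (ω 2).1 := by simp [tau, Finset.sum_range_succ]
    rcases not_and_or.1 hB with h3 | h3 <;> linarith [h 1, h 2, not_le.1 h3]
  have key : ∀ s, d (ω 0).2 s = 2 → (d (ω 1).2 s : ℝ) ≤ t - (ω 0).1 - (ω 1).1 := by
    intro s hs
    obtain ⟨i, h3, h4⟩ := ht.2 s
    rcases i with _ | _ | i
    · rw [tau0, dist_eq, hs] at h4; push_cast at h4; linarith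
    · rw [zero_add, tau1, dist_eq] at h4; linarith
    · have := tau_mono h (show 2 ≤ i + 1 + 1 by omega); linarith
  have h5 : (ω 1).2 = (ω 0).2 * a := by
    by_contra h6
    obtain ⟨s, h7, h8⟩ := d_far _ _ h6
    have := key s h7
    rw [h8] at this; push_cast at this; linarith [h 1]
  obtain ⟨s, h7, h8⟩ := d_mid (ω 0).2
  have h9 := key s h7
  rw [h5, h8] at h9
  push_cast at h9
  rw [indicator_of_mem (show ω ∈ EA 1 from ⟨by linarith, h5⟩)] at hlt
  linarith [h 1]

lemma box {X : Type} [MeasurableSpace X] (ν : Measure X) [IsProbabilityMeasure ν] {i j : ℕ}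
    (hij : i ≠ j) {U W : Set X} (hU : MeasurableSet U) (hW : MeasurableSet W) :
    (Measure.infinitePi fun _ : ℕ => ν) {ω | ω i ∈ U ∧ ω j ∈ W} = ν U * ν W := by
  have := Measure.infinitePi_pi (fun _ : ℕ => ν) (s := {i, j})
    (t := fun k => if k = i then U else W) (fun k _ => by split_ifs <;> assumption)
  rw [Finset.prod_pair hij, if_pos rfl, if_neg hij.symm] at this
  rw [← this]
  congr 1
  ext ω
  simp [hij.symm]

lemma me (i : ℕ) : Measurable fun ω : ℕ → ℝ × S => ω i := measurable_pi_apply i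

lemma mA (c : ℝ) : MeasurableSet (EA c) :=
  MeasurableSet.inter (measurableSet_le (me 1).fst measurable_const)
    (measurableSet_eq_fun (me 1).snd
      ((measurable_of_countable fun x : S => x * a).comp (me 0).snd))

lemma mB : MeasurableSet EB :=
  MeasurableSet.inter (measurableSet_le (me 1).fst measurable_const)
    (measurableSet_le (me 2).fst measurable_const)

noncomputable abbrev ex : Measure ℝ := expMeasure (1 / 1000)
instance : IsProbabilityMeasure ex := isProbabilityMeasure_expMeasure (by norm_num)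

lemma ex_Iic {x : ℝ} (hx : 0 ≤ x) : ex (Iic x) = ENNReal.ofReal (1 - Real.exp (-(1 / 1000 * x))) := by
  rw [← ofReal_cdf, cdf_expMeasure_eq (by norm_num), if_pos hx]

lemma ex_nn : ∀ᵐ x ∂ex, 0 ≤ x := by
  refine measure_mono_null (t := Iic 0) (fun x hx => (not_le.1 (show ¬ 0 ≤ x from hx)).le) ?_
  simp [ex_Iic le_rfl]

lemma ex_mean : ∫⁻ x, ENNReal.ofReal x ∂ex < ∞ := by
  rw [lintegral_eq_lintegral_meas_lt ex ex_nn aemeasurable_id']
  refine lt_of_le_of_lt (setLIntegral_mono' measurableSet_Ioi fun t ht => ?_)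
    (exp_neg_integrableOn_Ioi 0 (b := 1 / 1000) (by norm_num)).lintegral_lt_top
  have : {x : ℝ | t < x} = (Iic t)ᶜ := by ext x; simp
  rw [this, prob_compl_eq_one_sub measurableSet_Iic, ex_Iic (le_of_lt ht), tsub_le_iff_right,
    ← ENNReal.ofReal_add (Real.exp_pos _).le
      (sub_nonneg.2 (Real.exp_le_one_iff.2 (by have : 0 < t := ht; linarith)))]
  simp

section
variable (μ : Measure S) [IsProbabilityMeasure μ]

lemma ae_nn : ∀ᵐ ω ∂(Measure.infinitePi fun _ : ℕ => ex.prod μ), ∀ i, 0 ≤ (ω i).1 :=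
  ae_all_iff.2 fun i => (measurePreserving_eval_infinitePi (fun _ : ℕ => ex.prod μ)
    i).quasiMeasurePreserving.ae (Measure.quasiMeasurePreserving_fst.ae ex_nn)

lemma first : ∫⁻ ω, ENNReal.ofReal ((ω 0).1 + 2) ∂(Measure.infinitePi fun _ : ℕ => ex.prod μ) =
    ∫⁻ x, ENNReal.ofReal (x + 2) ∂ex :=
  ((measurePreserving_fst (μ := ex) (ν := μ)).comp (measurePreserving_eval_infinitePi
    (fun _ : ℕ => ex.prod μ) 0)).lintegral_comp (f := fun x => ENNReal.ofReal (x + 2))
    (by fun_prop)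

lemma cover_nn (ω : ℕ → ℝ × S) : 0 ≤ cover 1 ω := Real.sInf_nonneg fun _ h => h.1

lemma up : meanCover (1 / 1000) 1 μ + ENNReal.ofReal (1 / 2) *
    (Measure.infinitePi fun _ : ℕ => ex.prod μ) (EA (1 / 2)) ≤ ∫⁻ x, ENNReal.ofReal (x + 2) ∂ex := by
  rw [← first μ, ← lintegral_indicator_const (mA _), meanCover,
    ← lintegral_add_right _ (measurable_const.indicator (mA _))]
  refine lintegral_mono_ae ((ae_nn μ).mono fun ω h => le_trans ?_
    (ENNReal.ofReal_le_ofReal (upper h)))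
  rw [ENNReal.ofReal_add (cover_nn ω) (indicator_nonneg (by simp) _)]
  by_cases hA : ω ∈ EA (1 / 2)
  · rw [indicator_of_mem hA, indicator_of_mem hA]
  · rw [indicator_of_notMem hA, indicator_of_notMem hA, ENNReal.ofReal_zero]

lemma down : ∫⁻ x, ENNReal.ofReal (x + 2) ∂ex ≤ meanCover (1 / 1000) 1 μ +
    1 * (Measure.infinitePi fun _ : ℕ => ex.prod μ) (EA 1) +
    2 * (Measure.infinitePi fun _ : ℕ => ex.prod μ) EB := by
  rw [← first μ, ← lintegral_indicator_const (mA _), ← lintegral_indicator_const mB, meanCover,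
    ← lintegral_add_right _ (measurable_const.indicator (mA _)),
    ← lintegral_add_right _ (measurable_const.indicator mB)]
  refine lintegral_mono_ae ((ae_nn μ).mono fun ω h => le_trans
    (ENNReal.ofReal_le_ofReal (lower h)) ?_)
  refine ENNReal.ofReal_add_le.trans (add_le_add (ENNReal.ofReal_add_le.trans ?_) ?_)
  · by_cases hA : ω ∈ EA 1 <;> simp [hA]
  · by_cases hB : ω ∈ EB <;> simp [hB]

lemma PA (c : ℝ) : (Measure.infinitePi fun _ : ℕ => ex.prod μ) (EA c) =
    ∑ x, μ {x} * (ex (Iic c) * μ {x * a}) := by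
  have : EA c = ⋃ x ∈ (Finset.univ : Finset S),
      {ω | ω 0 ∈ (univ : Set ℝ) ×ˢ ({x} : Set S) ∧ ω 1 ∈ Iic c ×ˢ ({x * a} : Set S)} := by
    ext ω; simp [EA]
  rw [this, measure_biUnion_finset]
  · refine Finset.sum_congr rfl fun x _ => ?_
    rw [box _ (by norm_num) (by measurability) (by measurability)]
    simp
  · intro x _ y _ hxy
    refine disjoint_left.2 fun ω h1 h2 => hxy ?_
    exact (show (ω 0).2 = x from h1.1.2).symm.trans h2.1.2
  · intro x _
    exact ((measurable_pi_apply 0) (by measurability)).inter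
      ((measurable_pi_apply 1) (by measurability))

lemma PB : (Measure.infinitePi fun _ : ℕ => ex.prod μ) EB = ex (Iic 2) * ex (Iic 2) := by
  have : EB = {ω | ω 1 ∈ Iic (2 : ℝ) ×ˢ (univ : Set S) ∧ ω 2 ∈ Iic (2 : ℝ) ×ˢ (univ : Set S)} := by
    ext ω; simp [EB]
  rw [this, box _ (by norm_num) (by measurability) (by measurability)]
  simp

end

lemma q_le {x : ℝ} (hx : 0 ≤ x) : ex (Iic x) ≤ ENNReal.ofReal (x / 1000) := by
  rw [ex_Iic hx]
  exact ENNReal.ofReal_le_ofReal (by linarith [Real.add_one_le_exp (-(1 / 1000 * x))])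

lemma q_ge : ENNReal.ofReal (1 / 2001) ≤ ex (Iic (1 / 2)) := by
  rw [ex_Iic (by norm_num)]
  refine ENNReal.ofReal_le_ofReal ?_
  have h1 := Real.add_one_le_exp (1 / 1000 * (1 / 2))
  have h2 : Real.exp (-(1 / 1000 * (1 / 2))) ≤ (1 / 1000 * (1 / 2) + 1)⁻¹ := by
    rw [Real.exp_neg]; exact inv_anti₀ (by norm_num) h1
  norm_num at h2 ⊢
  linarith

theorem result : ∃ (S : Type) (_ : Group S) (_ : MetricSpace S) (_ : CompactSpace S)
    (_ : IsTopologicalGroup S) (_ : MeasurableSpace S) (_ : BorelSpace S),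
    (∀ g x y : S, dist (g * x) (g * y) = dist x y) ∧
    ∃ m μ : Measure S, m.IsHaarMeasure ∧ IsProbabilityMeasure m ∧ IsProbabilityMeasure μ ∧
      ∃ l v : ℝ, 0 < l ∧ 0 < v ∧ meanCover l v μ < meanCover l v m := by
  have hc : Fintype.card S = 16 := rfl
  have h16 : (16 : ℝ≥0∞)⁻¹ * 16 = 1 := ENNReal.inv_mul_cancel (by norm_num) (by norm_num)
  have hm : IsProbabilityMeasure ((16 : ℝ≥0∞)⁻¹ • (Measure.count : Measure S)) :=
    ⟨by simp [hc, h16]⟩
  have hμ : IsProbabilityMeasure ((2 : ℝ≥0∞)⁻¹ • (Measure.dirac (1 : S) + Measure.dirac a)) :=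
    ⟨by simp [ENNReal.inv_two_add_inv_two]⟩
  have hH : (Measure.count : Measure S).IsHaarMeasure :=
    { lt_top_of_isCompact := fun K _ => measure_lt_top _ K
      open_pos := fun U _ hU => by simpa using hU.ne_empty }
  refine ⟨S, inferInstance, inferInstance, inferInstance, inferInstance, inferInstance,
    inferInstance, fun g x y => by rw [dist_eq, dist_eq, d_inv], _, _,
    Measure.IsHaarMeasure.smul _ (by norm_num) (by norm_num), hm, hμ, 1 / 1000, 1, by norm_num,
    one_pos, ?_⟩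
  have h1 := up ((2 : ℝ≥0∞)⁻¹ • (Measure.dirac (1 : S) + Measure.dirac a))
  have h2 := down ((16 : ℝ≥0∞)⁻¹ • (Measure.count : Measure S))
  have hfin : ∫⁻ x, ENNReal.ofReal (x + 2) ∂ex ≠ ∞ := by
    refine ne_top_of_le_ne_top ?_ (lintegral_mono fun x => ENNReal.ofReal_add_le)
    rw [lintegral_add_right _ measurable_const]
    simp [ex_mean.ne]
  rw [PA] at h1 h2
  rw [PB] at h2
  have e1 : ENNReal.ofReal (1 / 10000) ≤ ENNReal.ofReal (1 / 2) *
      ∑ x, ((2 : ℝ≥0∞)⁻¹ • (Measure.dirac (1 : S) + Measure.dirac a)) {x} * (ex (Iic (1 / 2)) *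
        ((2 : ℝ≥0∞)⁻¹ • (Measure.dirac (1 : S) + Measure.dirac a)) {x * a}) := by
    have ha : a ≠ 1 := by decide
    have haa : a * a = 1 := by decide
    refine le_trans ?_ (mul_le_mul_right (Finset.sum_le_sum_of_subset
      (Finset.subset_univ {1, a})) _)
    rw [Finset.sum_pair ha.symm]
    have h2 : (2 : ℝ≥0∞)⁻¹ = ENNReal.ofReal (1 / 2) := by
      rw [ENNReal.ofReal_div_of_pos two_pos]; simp
    simp only [haa, one_mul, Measure.smul_apply, Measure.add_apply, Measure.dirac_apply,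
      mem_singleton_iff, indicator_of_mem, ha, ha.symm, not_false_eq_true, indicator_of_notMem,
      Pi.one_apply, add_zero, zero_add, smul_eq_mul, mul_one, h2]
    refine le_trans ?_ (mul_le_mul_right (add_le_add (mul_le_mul_right (mul_le_mul_left q_ge _) _)
      (mul_le_mul_right (mul_le_mul_left q_ge _) _)) _)
    rw [← ENNReal.ofReal_mul (by norm_num), ← ENNReal.ofReal_mul (by norm_num),
      ← ENNReal.ofReal_add (by norm_num) (by norm_num), ← ENNReal.ofReal_mul (by norm_num)]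
    exact ENNReal.ofReal_le_ofReal (by norm_num)
  have e2 : 1 * ∑ x : S, ((16 : ℝ≥0∞)⁻¹ • (Measure.count : Measure S)) {x} * (ex (Iic 1) *
      ((16 : ℝ≥0∞)⁻¹ • (Measure.count : Measure S)) {x * a}) + 2 * (ex (Iic 2) * ex (Iic 2)) ≤
      ENNReal.ofReal (9 / 100000) := by
    simp only [Measure.smul_apply, Measure.count_singleton, smul_eq_mul, mul_one, one_mul,
      Finset.sum_const, Finset.card_univ, hc, nsmul_eq_mul, Nat.cast_ofNat]
    rw [← mul_assoc, mul_comm 16, h16, one_mul]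
    have h3 : (16 : ℝ≥0∞)⁻¹ = ENNReal.ofReal (1 / 16) := by
      rw [ENNReal.ofReal_div_of_pos (by norm_num)]; simp
    have h4 : (2 : ℝ≥0∞) = ENNReal.ofReal 2 := by simp
    refine le_trans (add_le_add (mul_le_mul_left (q_le zero_le_one) _)
      (mul_le_mul_right (mul_le_mul' (q_le zero_le_two) (q_le zero_le_two)) _)) ?_
    rw [h3, h4, ← ENNReal.ofReal_mul (by norm_num), ← ENNReal.ofReal_mul (by norm_num),
      ← ENNReal.ofReal_mul (by norm_num), ← ENNReal.ofReal_add (by norm_num) (by norm_num)]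
    exact ENNReal.ofReal_le_ofReal (by norm_num)
  by_contra hle
  have h3 := (add_le_add (not_lt.1 hle) e1).trans (h1.trans h2)
  rw [add_assoc] at h3
  have h4 := ne_top_of_le_ne_top hfin ((le_self_add.trans (add_le_add (not_lt.1 hle) e1)).trans h1)
  have h5 := ((ENNReal.add_le_add_iff_left h4).1 h3).trans e2
  rw [ENNReal.ofReal_le_ofReal_iff (by norm_num)] at h5
  norm_num at h5

end Pool.Agent.Results.MP_b215e8_pr.NotHaar
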